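import Mathlib
import Pool.Agent.Helper64.Frolov.Defs
import Pool.Agent.Helper64.Frolov.AC

namespace Pool.Agent.Results.MP_88c2a9_an.FrolovSharp

open Filter Pool.Agent.Helper64.Frolov

theorem result {d : ℕ} (hd : 2 ≤ d) (A : Matrix (Fin d) (Fin d) ℝ) (hA : IsFrolovMatrix A)
    (φ : ℕ → ℝ → ℝ) (hφ : IsDyadicResolution φ) (p r : ℝ) (hp : 2 < p) (hpr : 1 / p < r) :
    (r < 1 / 2 → ∃ c : ℝ, 0 < c ∧ ∀ᶠ a : ℝ in atTop,
      ENNReal.ofReal (c * (a ^ (-(r * d)) * Real.log a ^ (((d : ℝ) - 1) * (1 - r)))) ≤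
        frolovError A a φ p r) ∧
    (r = 1 / 2 → ∃ c : ℝ, 0 < c ∧ ∀ᶠ a : ℝ in atTop,
      ENNReal.ofReal (c * (a ^ (-(r * d)) * Real.log a ^ (((d : ℝ) - 1) / 2) *
        √(Real.log (Real.log a)))) ≤ frolovError A a φ p r) := by
  have hr : 0 < r := lt_trans (by positivity) hpr
  refine ⟨fun h => case_small A hA hφ hd p r hp hr h, fun h => ?_⟩
  subst h
  exact case_half A hA hφ hd p hp

end Pool.Agent.Results.MP_88c2a9_an.FrolovSharp
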